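import Pool.Agent.N510.PA.Stm
import Pool.Agent.Y468.LA.Lin

/-!
(POL) finite-state automorphisms of polynomial activity (subtask 1119).
-/

set_option autoImplicit false

open Classical

namespace Pool.Agent.N34.PA.Pol

open Pool.Agent.Y462.SS Pool.Agent.Y524L Pool.Agent.N510.PA Pool.Agent.Y468.LA

section mono

variable {X : Type}

theorem isPol_succ {n : ℕ} {f : Equiv.Perm (List X)} (hf : IsTree f) (h : IsPol n f) :
    IsPol (n + 1) f := by
  refine ⟨∅, {f}, fun f' hf' => ?_, fun v _ => ⟨[], v, rfl, f, Finset.mem_singleton_self _, ?_⟩⟩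
  · rw [Finset.mem_singleton] at hf'
    rw [hf']
    exact ⟨hf, h⟩
  · intro w
    have h1 : f [] = [] := List.eq_nil_of_length_eq_zero (hf.1 [])
    rw [h1, List.nil_append, List.nil_append]

theorem isPol_mono {n m : ℕ} (hnm : n ≤ m) {f : Equiv.Perm (List X)} (hf : IsTree f)
    (h : IsPol n f) : IsPol m f := by
  induction hnm with
  | refl => exact h
  | step _ ih => exact isPol_succ hf ih

theorem isPol_one : IsPol 0 (1 : T X).1 := by
  refine ⟨∅, 0, fun v _ u w _ => rfl⟩

end mono

variable {X : Type} [Finite X]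

/-- polynomial activity in terms of `ac` -/
def PolAc (f : T X) : Prop := ∃ c n : ℕ, ∀ m, ac f m ≤ c * (m + 1) ^ n

theorem ac_secW_le (f : T X) (v : List X) (m : ℕ) : ac (secW f v) m ≤ ac f (v.length + m) := by
  rw [ac_add]
  exact Finset.single_le_sum (f := fun v => ac (secW f v) m) (fun _ _ => Nat.zero_le _)
    (mem_W.2 rfl)

theorem PolAc_secW {f : T X} (h : PolAc f) (v : List X) : PolAc (secW f v) := by
  obtain ⟨c, n, hc⟩ := h
  refine ⟨c * (v.length + 1) ^ n, n, fun m => ?_⟩
  refine (ac_secW_le f v m).trans ((hc _).trans ?_)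
  rw [mul_assoc, ← mul_pow]
  apply Nat.mul_le_mul_left
  apply Nat.pow_le_pow_left
  nlinarith [Nat.zero_le (v.length * m)]

theorem ac_zero {f : T X} (h : f ≠ 1) : 1 ≤ ac f 0 := by
  rw [Nat.one_le_iff_ne_zero]
  unfold ac
  rw [Ne, cnt_eq_zero]
  intro h1
  exact h1 [] rfl h

theorem ac_double {f : T X} {U V : List X} (hUV : U ≠ V) (hl : U.length = V.length)
    (hU : secW f U = f) (hV : secW f V = f) (n : ℕ) : 2 * ac f n ≤ ac f (U.length + n) := by
  rw [ac_add]
  have h1 : ∑ w ∈ ({U, V} : Finset (List X)), ac (secW f w) n ≤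
      ∑ w ∈ W X U.length, ac (secW f w) n := by
    apply Finset.sum_le_sum_of_subset
    intro w hw
    rw [Finset.mem_insert, Finset.mem_singleton] at hw
    rw [mem_W]
    rcases hw with rfl | rfl
    · rfl
    · exact hl.symm
  rw [Finset.sum_pair hUV, hU, hV] at h1
  omega

theorem ac_exp {f : T X} (hf : f ≠ 1) {U V : List X} (hUV : U ≠ V) (hl : U.length = V.length)
    (hU : secW f U = f) (hV : secW f V = f) (k : ℕ) : 2 ^ k ≤ ac f (k * U.length) := by
  induction k with
  | zero => rw [pow_zero, Nat.zero_mul]; exact ac_zero hf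
  | succ k ih =>
    have h1 := ac_double hUV hl hU hV (k * U.length)
    rw [pow_succ, Nat.succ_mul, add_comm (k * U.length)]
    omega

theorem exp_beats (C n : ℕ) : ∃ k : ℕ, C * (k + 1) ^ n < 2 ^ k := by
  have h := tendsto_pow_const_div_const_pow_of_one_lt n (show (1 : ℝ) < 2 by norm_num)
  have h1 : ∀ᶠ k : ℕ in Filter.atTop, (k : ℝ) ^ n / 2 ^ k < 1 / (2 * C + 1) :=
    h.eventually (gt_mem_nhds (by positivity))
  obtain ⟨k, hk, hk1⟩ := (h1.and (Filter.eventually_ge_atTop 1)).exists
  obtain ⟨j, rfl⟩ : ∃ j, k = j + 1 := ⟨k - 1, by omega⟩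
  refine ⟨j, ?_⟩
  rw [div_lt_div_iff₀ (by positivity) (by positivity)] at hk
  have h2 : (((j + 1 : ℕ) : ℝ)) ^ n * (2 * C + 1) < 1 * 2 ^ (j + 1) := hk
  have h3 : (j + 1) ^ n * (2 * C + 1) < 1 * 2 ^ (j + 1) := by exact_mod_cast h2
  rw [pow_succ 2 j] at h3
  nlinarith [Nat.zero_le ((j + 1) ^ n)]

theorem no_pair {f : T X} (hf : f ≠ 1) (hp : PolAc f) {U V : List X} (hUV : U ≠ V)
    (hl : U.length = V.length) (hU : secW f U = f) (hV : secW f V = f) : False := by
  obtain ⟨c, n, hc⟩ := hp
  obtain ⟨k, hk⟩ := exp_beats (c * (U.length + 1) ^ n) n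
  have h1 := ac_exp hf hUV hl hU hV k
  have h2 := hc (k * U.length)
  have h3 : c * (k * U.length + 1) ^ n ≤ c * (U.length + 1) ^ n * (k + 1) ^ n := by
    rw [mul_assoc, ← mul_pow]
    apply Nat.mul_le_mul_left
    apply Nat.pow_le_pow_left
    nlinarith [Nat.zero_le (U.length * k)]
  omega

omit [Finite X] in
/-- powers of a return word -/
theorem secW_pow {f : T X} {U : List X} (hU : secW f U = f) (k : ℕ) :
    secW f (List.replicate k U).flatten = f := by
  induction k with
  | zero => rfl
  | succ k ih => rw [List.replicate_succ, List.flatten_cons, secW_append, hU, ih]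

/-- the section at `v` leads back to `f` -/
def Back (f : T X) (v : List X) : Prop := ∃ u, secW f (v ++ u) = f

theorem back_unique {f : T X} (hf : f ≠ 1) (hp : PolAc f) {u v : List X} (hl : u.length = v.length)
    (hu : Back f u) (hv : Back f v) : u = v := by
  by_contra huv
  obtain ⟨u', hu'⟩ := hu
  obtain ⟨v', hv'⟩ := hv
  have hpos : 0 < u.length := by
    rw [List.length_pos_iff]
    rintro rfl
    rw [List.length_nil] at hl
    exact huv (List.eq_nil_of_length_eq_zero hl.symm).symm
  set U := u ++ u' with hUd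
  set V := v ++ v' with hVd
  have ha : 0 < U.length := by rw [hUd, List.length_append]; omega
  have hb : 0 < V.length := by rw [hVd, List.length_append]; omega
  have hlen : ∀ (k : ℕ) (w : List X), (List.replicate k w).flatten.length = k * w.length := by
    intro k w
    induction k with
    | zero => simp
    | succ k ih =>
      rw [List.replicate_succ, List.flatten_cons, List.length_append, ih, Nat.succ_mul, add_comm]
  refine no_pair hf hp (U := (List.replicate V.length U).flatten)
    (V := (List.replicate U.length V).flatten) ?_ ?_ (secW_pow hu' _) (secW_pow hv' _)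
  · intro h
    apply huv
    obtain ⟨b, hb'⟩ : ∃ b, V.length = b + 1 := ⟨V.length - 1, by omega⟩
    obtain ⟨a, ha'⟩ : ∃ a, U.length = a + 1 := ⟨U.length - 1, by omega⟩
    rw [hb', ha', List.replicate_succ, List.replicate_succ, List.flatten_cons, List.flatten_cons,
      hUd, hVd, List.append_assoc, List.append_assoc] at h
    exact (List.append_inj h hl).1
  · rw [hlen, hlen, mul_comm]

theorem main_ind : ∀ (N : ℕ) (q : T X), (Set.range (secW q)).Finite →
    (Set.range (secW q)).ncard ≤ N → PolAc q → ∃ n, IsPol n q.1 := by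
  intro N
  induction N with
  | zero =>
    intro q hfin hN _
    exfalso
    have h1 : 0 < (Set.range (secW q)).ncard := by
      rw [Set.ncard_pos hfin]
      exact ⟨q, [], rfl⟩
    omega
  | succ N ih =>
    intro q hfin hN hp
    by_cases hq : q = 1
    · exact ⟨0, by rw [hq]; exact isPol_one⟩
    -- sections off the rays
    have key : ∀ v, ¬ Back q v → ∃ n, IsPol n (secW q v).1 := by
      intro v hv
      have hsub : Set.range (secW (secW q v)) ⊆ Set.range (secW q) := by
        rintro _ ⟨u, rfl⟩
        exact ⟨v ++ u, secW_append q v u⟩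
      have hnot : q ∉ Set.range (secW (secW q v)) := by
        rintro ⟨u, hu⟩
        exact hv ⟨u, by rw [secW_append]; exact hu⟩
      have hss : Set.range (secW (secW q v)) ⊂ Set.range (secW q) :=
        ⟨hsub, fun h => hnot (h ⟨[], rfl⟩)⟩
      have hlt := Set.ncard_lt_ncard hss hfin
      exact ih _ (hfin.subset hsub) (by omega) (PolAc_secW hp v)
    have hrays : ∃ R : Finset (ℕ → X), ∀ v, Back q v → ∃ ρ ∈ R, OnRay ρ v := by
      by_cases hr : ∃ r : List X, r ≠ [] ∧ secW q r = q
      · obtain ⟨r, hr0, hr⟩ := hr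
        refine rays (Back q) ?_ 1 ?_
        · rintro v ⟨u, hu⟩
          rcases u with _ | ⟨x, u⟩
          · rw [List.append_nil] at hu
            obtain ⟨x, r', rfl⟩ := List.exists_cons_of_ne_nil hr0
            refine ⟨x, r', ?_⟩
            rw [List.append_assoc, List.singleton_append, secW_append, hu, hr]
          · refine ⟨x, u, ?_⟩
            rw [List.append_assoc, List.singleton_append]
            exact hu
        · intro n
          rw [Set.ncard_le_one ((List.finite_length_eq X n).subset fun v hv => hv.1)]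
          intro a ha b hb
          exact back_unique hq hp (ha.1.trans hb.1.symm) ha.2 hb.2
      · push Not at hr
        have hX : Nonempty X := by
          by_contra hX
          rw [not_nonempty_iff] at hX
          apply hq
          apply Subtype.ext
          apply Equiv.ext
          intro w
          rcases w with _ | ⟨x, w⟩
          · exact nil_eq q
          · exact (hX.false x).elim
        obtain ⟨x₀⟩ := hX
        refine ⟨{fun _ => x₀}, ?_⟩
        rintro v ⟨u, hu⟩
        have hv : v = [] := by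
          by_contra hv
          exact hr (v ++ u) (by simp [hv]) hu
        refine ⟨_, Finset.mem_singleton_self _, ?_⟩
        rw [hv]
        rfl
    obtain ⟨R, hR⟩ := hrays
    have hFfin : ({f : T X | ∃ v, ¬ Back q v ∧ secW q v = f}).Finite :=
      hfin.subset (by rintro _ ⟨v, _, rfl⟩; exact ⟨v, rfl⟩)
    have hn : ∀ f : T X, ∃ n, (∃ v, ¬ Back q v ∧ secW q v = f) → IsPol n f.1 := by
      intro f
      by_cases h : ∃ v, ¬ Back q v ∧ secW q v = f
      · obtain ⟨v, hv, rfl⟩ := h
        obtain ⟨n, hn⟩ := key v hv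
        exact ⟨n, fun _ => hn⟩
      · exact ⟨0, fun h' => absurd h' h⟩
    choose nn hnn using hn
    refine ⟨hFfin.toFinset.sup nn + 1, R, hFfin.toFinset.image (fun t : T X => t.1), ?_, ?_⟩
    · intro f hf
      rw [Finset.mem_image] at hf
      obtain ⟨t, ht, rfl⟩ := hf
      refine ⟨t.2, isPol_mono (Finset.le_sup ht) t.2 (hnn t ?_)⟩
      exact (Set.Finite.mem_toFinset hFfin).1 ht
    · intro v hv
      refine ⟨v, [], (List.append_nil v).symm, (secW q v).1, ?_, fun w => apply_append q v w⟩
      apply Finset.mem_image_of_mem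
      rw [Set.Finite.mem_toFinset]
      refine ⟨v, fun hb => ?_, rfl⟩
      obtain ⟨ρ, hρ, h1⟩ := hR v hb
      exact hv ρ hρ h1

theorem main : S_POL := by
  intro X hX g0 hg0 hf0 hl
  obtain ⟨g, hg⟩ : ∃ g : T X, g.1 = g0 := ⟨⟨g0, hg0⟩, rfl⟩
  subst hg
  have hf := range_finite hf0
  obtain ⟨c, n, hc⟩ := hl
  refine main_ind _ g hf le_rfl ⟨c, n, fun m => ?_⟩
  rw [← ncard_active]
  exact hc m

end Pool.Agent.N34.PA.Pol
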